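import Pool.Agent.MP_94218c_al.Mg.Main

/-!
For every odd prime `p` there is a periodic group `G` with an element `a` such that any two
conjugates of `a` generate a finite `p`-group, while `a` lies in no normal `p`-subgroup.
-/

theorem Pool.Agent.Results.MP_94218c_al.Counterexample.result :
    ∀ p : ℕ, p.Prime → 2 < p → ∃ (G : Type) (_ : Group G) (a : G), (∀ g : G, IsOfFinOrder g) ∧
      (∀ g h : G, Finite (Subgroup.closure {g⁻¹ * a * g, h⁻¹ * a * h} : Subgroup G) ∧
        IsPGroup p (Subgroup.closure {g⁻¹ * a * g, h⁻¹ * a * h} : Subgroup G)) ∧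
      ¬ ∃ N : Subgroup G, N.Normal ∧ IsPGroup p N ∧ a ∈ N := fun p hp h =>
  haveI := Fact.mk hp
  Pool.Agent.MP_94218c_al.reduce2 h fun a i e K => Pool.Agent.MP_94218c_al.main_cert a i e K
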